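import Pool.Agent.W104.Irr.Stmts

/-! Labelling with prescribed bottom and top lists (MP_033e98_co). -/

set_option autoImplicit false

namespace Pool.Agent.W826.Irr

open Finset

theorem labelList : Pool.Agent.W104.Irr.LabelList := by
  intro V _ Lf bot tp hnd hsub
  obtain ⟨r, hr⟩ : ∃ r : List V, r = (Lf \ (bot ++ tp).toFinset).toList := ⟨_, rfl⟩
  have hrmem : ∀ x, x ∈ r ↔ x ∈ Lf ∧ x ∉ bot ++ tp := by
    intro x
    rw [hr, Finset.mem_toList, Finset.mem_sdiff, List.mem_toFinset]
  have hrnd : r.Nodup := by rw [hr]; exact Finset.nodup_toList _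
  obtain ⟨L, hL⟩ : ∃ L : List V, L = bot ++ (r ++ tp.reverse) := ⟨_, rfl⟩
  rw [List.nodup_append] at hnd
  obtain ⟨hb, ht, hbt⟩ := hnd
  have hLnd : L.Nodup := by
    rw [hL, List.nodup_append]
    refine ⟨hb, ?_, ?_⟩
    · rw [List.nodup_append]
      refine ⟨hrnd, List.nodup_reverse.2 ht, ?_⟩
      intro x hx y hy hxy
      subst hxy
      exact ((hrmem x).1 hx).2 (List.mem_append.2 (Or.inr (List.mem_reverse.1 hy)))
    · intro x hx y hy hxy
      subst hxy
      rcases List.mem_append.1 hy with h | h
      · exact ((hrmem x).1 h).2 (List.mem_append.2 (Or.inl hx))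
      · exact hbt x hx x (List.mem_reverse.1 h) rfl
  have hLmem : ∀ x, x ∈ L ↔ x ∈ Lf := by
    intro x
    rw [hL, List.mem_append, List.mem_append, List.mem_reverse, hrmem]
    constructor
    · rintro (h | h | h)
      · exact hsub x (List.mem_append.2 (Or.inl h))
      · exact h.1
      · exact hsub x (List.mem_append.2 (Or.inr h))
    · intro h
      by_cases h1 : x ∈ bot ++ tp
      · rcases List.mem_append.1 h1 with h2 | h2
        · exact Or.inl h2
        · exact Or.inr (Or.inr h2)
      · exact Or.inr (Or.inl ⟨h, h1⟩)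
  have hLlen : L.length = Lf.card := by
    rw [← List.toFinset_card_of_nodup hLnd]
    congr 1
    ext x
    rw [List.mem_toFinset, hLmem]
  have hidx : ∀ (i : ℕ) (h : i < L.length), L.idxOf L[i] = i := fun i h =>
    List.Nodup.idxOf_getElem hLnd i h
  refine ⟨fun x => L.idxOf x + 1, ?_, ?_, ?_, ?_⟩
  · intro x hx
    have h1 := List.idxOf_lt_length_of_mem ((hLmem x).2 hx)
    show 1 ≤ L.idxOf x + 1 ∧ L.idxOf x + 1 ≤ Lf.card
    omega
  · intro x hx y hy hxy
    have h1 : L.idxOf x = L.idxOf y := by
      have : L.idxOf x + 1 = L.idxOf y + 1 := hxy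
      omega
    exact (List.idxOf_inj ((hLmem x).2 hx)).1 h1
  · intro i h
    have h1 : i < L.length := by
      rw [hL, List.length_append]
      omega
    have h2 : L[i] = bot[i] := by
      simp only [hL]
      rw [List.getElem_append_left h]
    show L.idxOf bot[i] + 1 = i + 1
    rw [← h2, hidx i h1]
  · intro i h
    have hlen : L.length = bot.length + (r.length + tp.length) := by
      rw [hL, List.length_append, List.length_append, List.length_reverse]
    have h1 : L.length - 1 - i < L.length := by omega
    have h2 : L[L.length - 1 - i] = tp[i] := by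
      have h3 : L.reverse[i]'(by rw [List.length_reverse]; omega) = tp[i] := by
        simp only [hL, List.reverse_append, List.reverse_reverse, List.append_assoc]
        rw [List.getElem_append_left h]
      rw [← h3, List.getElem_reverse]
    show L.idxOf tp[i] + 1 + i = Lf.card
    rw [← h2, hidx _ h1]
    omega

end Pool.Agent.W826.Irr
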